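import Pool.Agent.Run7.h317.DG.Same

/-!
# Loops of strands in the twisted surface: `S_tele → S_loop` (helper317)
-/

open Real Matrix Filter Topology

noncomputable section

namespace Run7.h317.DG

open Run7.h568.DG

variable {D : Type} [Fintype D] [DecidableEq D] {T : Tri D} {x : D → ℝ}

theorem snext_lt {c : D → ℕ} (hc : T.Match c) {v : D × ℕ} (hv : v.2 < T.num c v.1) :
    (T.snext c v).2 < T.num c (T.snext c v).1 := by
  unfold Tri.snext
  unfold Tri.num at hv
  by_cases h : v.2 < c v.1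
  · rw [if_pos h]
    show v.2 < T.num c (T.io (T.sg (T.sg v.1)))
    rw [hc]
    unfold Tri.num
    rw [T.sg3]
    omega
  · rw [if_neg h]
    show v.2 - c v.1 + c (T.sg (T.sg v.1)) < T.num c (T.io (T.sg v.1))
    rw [hc]
    unfold Tri.num
    omega

theorem loop_step (hT : S_tele) (t : TD T) (hx : ∀ d, x (T.io d) = x d) (g : D → SL)
    (hg : ∀ d, t.H x d * W * g (T.sg d) = g d * W ∧
      t.H x d * E (x d) * g (T.io d) = g d * E (t.tw x d)) (d : D) (i : ℕ)
    (hi : i < T.num t.c d) :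
    g d * step (Tri.sbit t.c (d, i)) (t.tw x (T.turn (Tri.sbit t.c (d, i)) d)) =
      t.Pd x d i * step (Tri.sbit t.c (d, i)) (x (T.turn (Tri.sbit t.c (d, i)) d)) *
        (t.Pd x (T.snext t.c (d, i)).1 (T.snext t.c (d, i)).2)⁻¹ *
          g (T.snext t.c (d, i)).1 := by
  obtain ⟨h1, h2⟩ := hT T t x hx d i hi
  by_cases h : t.c d ≤ i
  · have h3 := h1 h
    have hs : Tri.sbit t.c (d, i) = true := by simp [Tri.sbit, h]
    have hn : (T.snext t.c (d, i)).1 = T.io (T.sg d) := by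
      rw [← nxt_sbit, hs]; rfl
    rw [hs]
    simp only [Tri.turn, if_true]
    rw [← h3, step_true, hn, ← mul_assoc (g d) W, ← (hg d).1, mul_assoc _ (g (T.sg d)),
      ← (hg (T.sg d)).2]
    simp only [mul_assoc]
  · have h3 := h2 (by omega)
    have hs : Tri.sbit t.c (d, i) = false := by simp [Tri.sbit, h]
    have hn : (T.snext t.c (d, i)).1 = T.io (T.sg (T.sg d)) := by
      rw [← nxt_sbit, hs]; rfl
    rw [hs]
    simp only [Tri.turn, Bool.false_eq_true, if_false]
    rw [← h3, step_false, hn, ← mul_assoc (g d) (W * W), ← mul_assoc (g d) W W, ← (hg d).1,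
      mul_assoc _ (g (T.sg d)) W, ← (hg (T.sg d)).1, mul_assoc _ _ (E (t.tw x _)),
      mul_assoc _ (g _) (E (t.tw x _)), ← (hg (T.sg (T.sg d))).2]
    simp only [mul_assoc]

theorem loop_n (hT : S_tele) (t : TD T) (hx : ∀ d, x (T.io d) = x d) (g : D → SL)
    (hg : ∀ d, t.H x d * W * g (T.sg d) = g d * W ∧
      t.H x d * E (x d) * g (T.io d) = g d * E (t.tw x d)) (n : ℕ) :
    ∀ (d : D) (i : ℕ), i < T.num t.c d →
    g d * T.hol (t.tw x) (T.itin t.c n (d, i)) d =
      t.Pd x d i * T.hol x (T.itin t.c n (d, i)) d *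
        (t.Pd x ((T.snext t.c)^[n] (d, i)).1 ((T.snext t.c)^[n] (d, i)).2)⁻¹ *
          g ((T.snext t.c)^[n] (d, i)).1 := by
  induction n with
  | zero => intro d i _; simp [Tri.itin, Tri.hol]
  | succ n ih =>
    intro d i hi
    have h1 := loop_step hT t hx g hg d i hi
    have h2 := ih (T.snext t.c (d, i)).1 (T.snext t.c (d, i)).2 (snext_lt t.hc hi)
    simp only [Prod.mk.eta] at h2
    rw [Function.iterate_succ_apply]
    show g d * (step (Tri.sbit t.c (d, i)) (t.tw x (T.turn (Tri.sbit t.c (d, i)) d)) *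
        T.hol (t.tw x) (T.itin t.c n (T.snext t.c (d, i))) (T.nxt (Tri.sbit t.c (d, i)) d)) =
      t.Pd x d i * (step (Tri.sbit t.c (d, i)) (x (T.turn (Tri.sbit t.c (d, i)) d)) *
        T.hol x (T.itin t.c n (T.snext t.c (d, i))) (T.nxt (Tri.sbit t.c (d, i)) d)) * _ * _
    have h3 : T.nxt (Tri.sbit t.c (d, i)) d = (T.snext t.c (d, i)).1 :=
      nxt_sbit t.c (d, i)
    rw [h3, ← mul_assoc (g d), h1, mul_assoc _ (g _), h2]
    group

theorem loop (hT : S_tele) : S_loop := by
  intro D _ _ T t x hx g hg d i hi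
  have h := loop_n hT t hx g hg t.P d i hi
  rw [t.per d i hi] at h
  have h2 : T.hol (t.tw x) (T.itin t.c t.P (d, i)) d =
      (g d)⁻¹ * (t.Pd x d i * T.hol x (T.itin t.c t.P (d, i)) d *
        (t.Pd x d i)⁻¹ * g d) := by
    rw [← h]; group
  show T.hol (t.tw x) (T.itin t.c t.P (d, i)) d = _
  rw [h2]
  simp only [TD.str, mul_assoc]

end Run7.h317.DG
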