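import Pool.Agent.Run7.h568.DG.Iface

/-!
# The twisted surface is the same surface: `S_gauge → S_loop → S_same` (helper317)
-/

open Real Matrix Filter Topology

noncomputable section

namespace Run7.h317.DG

open Run7.h568.DG

theorem W_val : (W : SL).1 = !![1, -1; 1, 0] := rfl

theorem E_val (s : ℝ) : (E s).1 = !![0, exp (s / 2); -exp (-s / 2), 0] := rfl

theorem Del_val (s : ℝ) : (Del s).1 = !![exp (-s / 2), 0; 0, exp (s / 2)] := rfl

theorem U_true_val : (U true).1 = !![1, 1; 0, 1] := rfl

theorem U_false_val : (U false).1 = !![1, 0; 1, 1] := rfl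

theorem val_mul (a b : SL) : (a * b).1 = a.1 * b.1 := rfl

theorem step_true (s : ℝ) : step true s = W * E s := by
  apply Subtype.ext
  rw [step, val_mul, val_mul, U_true_val, Del_val, W_val, E_val]
  ext i j
  fin_cases i <;> fin_cases j <;> simp [Matrix.mul_apply, Fin.sum_univ_two]

theorem step_false (s : ℝ) : step false s = W * W * E s := by
  apply Subtype.ext
  rw [step, val_mul, val_mul, val_mul, U_false_val, Del_val, W_val, E_val]
  ext i j
  fin_cases i <;> fin_cases j <;> simp [Matrix.mul_apply, Fin.sum_univ_two]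

theorem W_inv : (W : SL)⁻¹ = -(W * W) := by
  rw [inv_eq_iff_mul_eq_one, mul_neg]
  apply Subtype.ext
  show -(W.1 * (W.1 * W.1)) = (1 : Matrix (Fin 2) (Fin 2) ℝ)
  rw [W_val]
  ext i j
  fin_cases i <;> fin_cases j <;> simp [Matrix.mul_apply, Fin.sum_univ_two]

theorem E_inv (s : ℝ) : (E s)⁻¹ = -(E s) := by
  rw [inv_eq_iff_mul_eq_one, mul_neg]
  apply Subtype.ext
  show -((E s).1 * (E s).1) = (1 : Matrix (Fin 2) (Fin 2) ℝ)
  rw [E_val]
  ext i j
  fin_cases i <;> fin_cases j <;>
    simp [Matrix.mul_apply, Fin.sum_univ_two, ← exp_add] <;> ring_nf <;> simp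

variable {D : Type} [Fintype D] [DecidableEq D] {T : Tri D} {x : D → ℝ}

theorem path_mul {d d' : D} {g : SL} (h1 : T.Path x d d' g) {d'' : D} {g' : SL}
    (h2 : T.Path x d' d'' g') : T.Path x d d'' (g * g') := by
  induction h2 with
  | one => simpa using h1
  | neg _ ih => rw [mul_neg]; exact ih.neg
  | sg _ ih => rw [← mul_assoc]; exact ih.sg
  | io _ ih => rw [← mul_assoc]; exact ih.io

theorem path_inv (hx : ∀ d, x (T.io d) = x d) {d d' : D} {g : SL} (h1 : T.Path x d d' g) :
    T.Path x d' d g⁻¹ := by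
  induction h1 with
  | one => simpa using Tri.Path.one
  | neg _ ih =>
    rw [show ∀ g : SL, (-g)⁻¹ = -g⁻¹ from fun g => by
      rw [inv_eq_iff_mul_eq_one]; simp]
    exact ih.neg
  | @sg d' g _ ih =>
    rw [_root_.mul_inv_rev, W_inv]
    refine path_mul ?_ ih
    have h3 : T.Path x (T.sg d') (T.sg (T.sg (T.sg d'))) (1 * W * W) := Tri.Path.one.sg.sg
    rw [T.sg3, one_mul] at h3
    exact h3.neg
  | @io d' g _ ih =>
    rw [_root_.mul_inv_rev, E_inv]
    refine path_mul ?_ ih
    have h3 : T.Path x (T.io d') (T.io (T.io d')) (1 * E (x (T.io d'))) := Tri.Path.one.io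
    rw [T.io_io, one_mul, hx] at h3
    exact h3.neg

theorem path_zpow (hx : ∀ d, x (T.io d) = x d) {d : D} {g : SL} (h1 : T.Path x d d g) (m : ℤ) :
    T.Path x d d (g ^ m) := by
  have hn : ∀ n : ℕ, T.Path x d d (g ^ n) := by
    intro n
    induction n with
    | zero => simpa using Tri.Path.one
    | succ n ih => rw [pow_succ]; exact path_mul ih h1
  rcases m with n | n
  · simpa using hn n
  · rw [zpow_negSucc]
    exact path_inv hx (hn (n + 1))

theorem path_hol (w : List Bool) (d : D) : T.Path x d (T.endp w d) (T.hol x w d) := by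
  induction w generalizing d with
  | nil => exact Tri.Path.one
  | cons b w ih =>
    refine path_mul ?_ (ih _)
    cases b with
    | true =>
      have h3 : T.Path x d (T.io (T.sg d)) (1 * W * E (x (T.sg d))) := Tri.Path.one.sg.io
      rw [one_mul, ← step_true] at h3
      exact h3
    | false =>
      have h3 : T.Path x d (T.io (T.sg (T.sg d))) (1 * W * W * E (x (T.sg (T.sg d)))) :=
        Tri.Path.one.sg.sg.io
      rw [one_mul, ← step_false] at h3
      exact h3

theorem nxt_sbit (c : D → ℕ) (v : D × ℕ) : T.nxt (Tri.sbit c v) v.1 = (T.snext c v).1 := by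
  unfold Tri.nxt Tri.sbit Tri.snext
  by_cases h : v.2 < c v.1
  · rw [if_pos h]
    have : ¬ c v.1 ≤ v.2 := by omega
    simp [this, Tri.turn]
  · rw [if_neg h]
    have : c v.1 ≤ v.2 := by omega
    simp [this, Tri.turn]

theorem endp_itin (c : D → ℕ) (n : ℕ) (v : D × ℕ) :
    T.endp (T.itin c n v) v.1 = ((T.snext c)^[n] v).1 := by
  induction n generalizing v with
  | zero => rfl
  | succ n ih =>
    rw [Function.iterate_succ_apply]
    show T.endp (T.itin c n (T.snext c v)) (T.nxt (Tri.sbit c v) v.1) = _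
    rw [nxt_sbit, ih]

theorem path_str (t : TD T) {d : D} {i : ℕ} (hi : i < T.num t.c d) :
    T.Path x d d (t.str x (d, i)) := by
  have h := path_hol (T := T) (x := x) (T.itin t.c t.P (d, i)) d
  have h2 := endp_itin (T := T) t.c t.P (d, i)
  rw [t.per d i hi] at h2
  rw [h2] at h
  exact h

theorem Pd_succ (t : TD T) (d : D) (n : ℕ) :
    t.Pd x d (n + 1) = t.Pd x d n * t.str x (d, n) ^ t.m (d, n) := by
  unfold TD.Pd
  rw [List.range_succ, List.map_append, List.prod_append]
  simp

theorem path_Pd (hx : ∀ d, x (T.io d) = x d) (t : TD T) (d : D) (n : ℕ)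
    (hn : n ≤ T.num t.c d) : T.Path x d d (t.Pd x d n) := by
  induction n with
  | zero => simpa [TD.Pd] using Tri.Path.one
  | succ n ih =>
    rw [Pd_succ]
    exact path_mul (ih (by omega)) (path_zpow hx (path_str t (by omega)) _)

theorem tw_io (hx : ∀ d, x (T.io d) = x d) (t : TD T) (d : D) :
    t.tw x (T.io d) = t.tw x d := by
  unfold TD.tw
  rw [hx, T.io_io]
  ring

theorem path_Pd' (hL : S_loop) (hx : ∀ d, x (T.io d) = x d) (t : TD T) (g : D → SL)
    (hg : ∀ d, t.H x d * W * g (T.sg d) = g d * W ∧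
      t.H x d * E (x d) * g (T.io d) = g d * E (t.tw x d)) (d : D) (n : ℕ)
    (hn : n ≤ T.num t.c d) :
    T.Path (t.tw x) d d ((g d)⁻¹ * t.Pd x d n * g d) := by
  have hx' := tw_io hx t
  induction n with
  | zero => simpa [TD.Pd] using Tri.Path.one
  | succ n ih =>
    have h1 := path_zpow hx' (path_str (x := t.tw x) t (d := d) (i := n) (by omega)) (t.m (d, n))
    rw [hL T t x hx g hg d n (by omega)] at h1
    have h2 : ((g d)⁻¹ * t.Pd x d n * t.str x (d, n) * (t.Pd x d n)⁻¹ * g d) ^ t.m (d, n) =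
        (g d)⁻¹ * t.Pd x d n * t.str x (d, n) ^ t.m (d, n) * (t.Pd x d n)⁻¹ * g d := by
      have h3 := conj_zpow (i := t.m (d, n)) (a := (g d)⁻¹ * t.Pd x d n) (b := t.str x (d, n))
      rw [_root_.mul_inv_rev, inv_inv] at h3
      simp only [mul_assoc] at h3 ⊢
      exact h3
    rw [h2] at h1
    have h4 := path_mul h1 (ih (by omega))
    rw [Pd_succ]
    have h5 : (g d)⁻¹ * t.Pd x d n * t.str x (d, n) ^ t.m (d, n) * (t.Pd x d n)⁻¹ * g d *
        ((g d)⁻¹ * t.Pd x d n * g d) =
        (g d)⁻¹ * (t.Pd x d n * t.str x (d, n) ^ t.m (d, n)) * g d := by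
      group
    rw [h5] at h4
    exact h4

theorem same (hG : S_gauge) (hL : S_loop) : S_same := by
  intro D _ _ T t x hx d
  obtain ⟨g, hg⟩ := hG T t x hx
  have hg' : ∀ d, t.H x d * W * g (T.sg d) = g d * W ∧
      t.H x d * E (x d) * g (T.io d) = g d * E (t.tw x d) := fun d => ⟨(hg d).1, (hg d).2.1⟩
  have hx' := tw_io hx t
  have hto : ∀ {d' : D} {h : SL}, T.Path (t.tw x) d d' h →
      T.Path x d d' (g d * h * (g d')⁻¹) := by
    intro d' h hp
    induction hp with
    | one => simpa using Tri.Path.one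
    | neg _ ih => rw [mul_neg, neg_mul]; exact ih.neg
    | @sg d' h _ ih =>
      have h1 : g d * (h * W) * (g (T.sg d'))⁻¹ =
          g d * h * (g d')⁻¹ * t.H x d' * W := by
        have h2 : t.H x d' * W = g d' * W * (g (T.sg d'))⁻¹ := by
          rw [← (hg' d').1]; group
        rw [mul_assoc _ (t.H x d') W, h2]; group
      rw [h1]
      exact (path_mul ih (path_Pd hx t d' _ le_rfl)).sg
    | @io d' h _ ih =>
      have h1 : g d * (h * E (t.tw x d')) * (g (T.io d'))⁻¹ =
          g d * h * (g d')⁻¹ * t.H x d' * E (x d') := by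
        have h2 : t.H x d' * E (x d') = g d' * E (t.tw x d') * (g (T.io d'))⁻¹ := by
          rw [← (hg' d').2]; group
        rw [mul_assoc _ (t.H x d') (E (x d')), h2]; group
      rw [h1]
      exact (path_mul ih (path_Pd hx t d' _ le_rfl)).io
  have hfrom : ∀ {d' : D} {k : SL}, T.Path x d d' k →
      T.Path (t.tw x) d d' ((g d)⁻¹ * k * g d') := by
    intro d' k hp
    induction hp with
    | one => simpa using Tri.Path.one
    | neg _ ih => rw [mul_neg, neg_mul]; exact ih.neg
    | @sg d' k _ ih =>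
      have h1 : (g d)⁻¹ * (k * W) * g (T.sg d') =
          (g d)⁻¹ * k * g d' * ((g d')⁻¹ * t.H x d' * g d')⁻¹ * W := by
        have h2 : W * g (T.sg d') = (t.H x d')⁻¹ * (g d' * W) := by
          rw [← (hg' d').1]; group
        rw [mul_assoc _ (k * W), mul_assoc k W, h2]; group
      rw [h1]
      exact (path_mul ih (path_inv hx' (path_Pd' hL hx t g hg' d' _ le_rfl))).sg
    | @io d' k _ ih =>
      have h1 : (g d)⁻¹ * (k * E (x d')) * g (T.io d') =
          (g d)⁻¹ * k * g d' * ((g d')⁻¹ * t.H x d' * g d')⁻¹ * E (t.tw x d') := by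
        have h2 : E (x d') * g (T.io d') = (t.H x d')⁻¹ * (g d' * E (t.tw x d')) := by
          rw [← (hg' d').2]; group
        rw [mul_assoc _ (k * E (x d')), mul_assoc k (E (x d')), h2]; group
      rw [h1]
      exact (path_mul ih (path_inv hx' (path_Pd' hL hx t g hg' d' _ le_rfl))).io
  refine ⟨g d, fun h => ⟨fun hp => hto hp, fun hp => ?_⟩⟩
  have h1 := hfrom hp
  have h2 : (g d)⁻¹ * (g d * h * (g d)⁻¹) * g d = h := by group
  rwa [h2] at h1

end Run7.h317.DG
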